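import Pool.Agent.V11331.DLA.Est

/-!
# The end time of diffusion limited aggregation on the Boolean lattice is `o(2 ^ n)`

Give the vertices of level `j` the weight `w j`, where `w 0 = 1`, `w (j + 1) = κ S_j` and
`S_j = ∑ i ≤ j, w i * choose n i = ∏ i < j, (1 + κ choose n (i + 1))`. The random walk meets a given
vertex of level `j` with probability `1 / choose n j`, so the total weight `M` of the cluster is at
most the mean of `S_J`, `J` being the highest occupied level on the walk, and the weight added by the
step is `κ S_J`. Hence `log M` has drift at least `κ / 2`, and `(κ / 2) E t_end ≤ log S_n`. With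
`κ = n / (4 * 2 ^ n)` this is `o(n)`.
-/

set_option autoImplicit false

open MeasureTheory Filter Topology
open scoped ENNReal

namespace Pool.Agent.Results.MP_db93e3_pr.EndTime

open Pool.Agent.V11331.DLA

/-- For every `ε > 0` the probability that `t_end > ε 2 ^ n` tends to `0`. -/
theorem result : ∀ ε : ℝ, 0 < ε →
    Tendsto (fun n : ℕ => law n {ρ | ENNReal.ofReal (ε * 2 ^ n) < tEnd ρ}) atTop (𝓝 0) :=
  fun ε hε => final ε hε

end Pool.Agent.Results.MP_db93e3_pr.EndTime
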